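import Pool.Agent.Y138.TB.Limit
import Pool.Agent.TH65.B.Main

/-!
# Torsion groups with first `L²`-Betti number slightly below 1
-/

set_option autoImplicit false

namespace Pool.Agent.Y138.TB

open Pool.Agent.TH65.B
open Pool.Agent.TH64 Pool.Agent.TH63.RD Pool.Agent.TH714.L2
open Pool.Agent.H919R3.L2 (b1l2)
open Pool.Agent.H919R3.Stmt (l2Betti)

theorem mainEps (n : ℕ) : ∃ (G : Type) (_ : Group G), Monoid.IsTorsion G ∧
    (∀ a : G, a ≠ 1 → (orderOf a).Prime) ∧
    (∃ S : Finset G, S.card = 2 ∧ Subgroup.closure (S : Set G) = ⊤) ∧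
    (∀ S : Finset G, Subgroup.closure (S : Set G) = ⊤ →
      1 - (1 / 2 : ℝ) ^ (n + 1) ≤ l2Betti S ∧ l2Betti S < 1) ∧
    (∀ A : Subgroup G, IsAmenable A → A = ⊥ ∨
      ∃ p : ℕ, p.Prime ∧ Nat.card A = p ∧ IsCyclic A) ∧
    (∀ G₁ : Subgroup G, G₁.FiniteIndex → G₁ = ⊤) := by
  classical
  obtain ⟨E0, R, Ri, hRi, hE0, hmono, hmem, hrd, htor, hcen, hprime, hgrow, hfac, ⟨ι, w, N, hNp, hord,
    hker, hsum⟩, hne⟩ := limitEps n
  set G := F2 ⧸ Ri with hG
  set φ : F2 →* G := QuotientGroup.mk' Ri with hφ
  have hφs : Function.Surjective φ := QuotientGroup.mk'_surjective Ri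
  -- the generating set
  set v : Fin 2 → G := fun i => φ (FreeGroup.of i) with hv
  have hvinj : Function.Injective v := by
    intro i j hij
    fin_cases i <;> fin_cases j
    · rfl
    · exact absurd hij hne
    · exact absurd hij.symm hne
    · rfl
  set S : Finset G := Finset.univ.image v with hS
  have hScard : S.card = 2 := by
    rw [hS, Finset.card_image_of_injective _ hvinj]
    rfl
  have hSgen : Subgroup.closure (S : Set G) = ⊤ := by
    rw [hS, Finset.coe_image, Finset.coe_univ, Set.image_univ]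
    have h1 : Set.range v = φ '' (Set.range FreeGroup.of) := by
      rw [← Set.range_comp]
      rfl
    rw [h1, ← MonoidHom.map_closure, FreeGroup.closure_range_of, ← MonoidHom.range_eq_map]
    exact MonoidHom.range_eq_top.2 hφs
  let e : Fin 2 ≃ S := Equiv.ofBijective (fun i => ⟨v i, Finset.mem_image_of_mem _
    (Finset.mem_univ i)⟩) (by
      constructor
      · intro i j hij
        exact hvinj (congrArg Subtype.val hij)
      · rintro ⟨x, hx⟩
        obtain ⟨i, -, hi⟩ := Finset.mem_image.1 hx
        exact ⟨i, Subtype.ext hi⟩)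
  -- the lower bound
  have hlow : 1 - (1 / 2 : ℝ) ^ (n + 1) ≤ b1l2 S := by
    have h1 := lower_rel S φ hφs e (fun i => rfl) w N (fun i => (hNp i).one_lt.le) hord
      (fun K hK hw => by
        rw [hφ, QuotientGroup.ker_mk']
        exact hker K hK hw) ((1 / 2) ^ (n + 1)) hsum
    rw [hScard] at h1
    push_cast at h1
    linarith
  have hsmall : ((1 : ℝ) / 2) ^ (n + 1) < 1 := pow_lt_one₀ (by norm_num) (by norm_num) (by omega)
  have hinf : Infinite G := by
    by_contra hcon
    rw [not_infinite_iff_finite] at hcon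
    have := b1l2_fin S
    linarith
  have hup : b1l2 S < 1 := by
    have h1 := b1l2_lt S hSgen (v 0) (Finset.mem_image_of_mem _ (Finset.mem_univ _)) (htor _)
    rw [hScard] at h1
    push_cast at h1
    linarith
  refine ⟨G, inferInstance, htor, hprime, ⟨S, hScard, hSgen⟩, ?_, ?_, ?_⟩
  · intro S' hS'
    rw [l2Betti_indep S' S hS' hSgen, l2Betti_eq]
    exact ⟨hlow, hup⟩
  · -- amenable subgroups
    intro A hA
    have hFol : Pool.Agent.W336.CS.Fol A := Pool.Agent.W361.CS.fol A hA
    have hcomm : ∀ a ∈ A, ∀ b ∈ A, a * b = b * a := by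
      by_contra hcon
      push Not at hcon
      obtain ⟨a, ha, b, hb, hab⟩ := hcon
      obtain ⟨r, F, hF, hcard⟩ := hgrow a b hab
      have hle : Subgroup.closure ({a, b} : Set G) ≤ A := by
        rw [Subgroup.closure_le]
        rintro x (rfl | hx)
        · exact ha
        · rw [Set.mem_singleton_iff] at hx
          rw [hx]
          exact hb
      have hrdr := hrd r
      have hK : 0 ≤ E0 * (1 + (r : ℝ)) ^ 7 := by positivity
      have hFne : F.Nonempty := by
        rw [← Finset.card_pos]
        have : (0 : ℝ) < F.card := lt_of_le_of_lt hK hcard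
        exact_mod_cast this
      have h1 := Am.amen_card A hFol (FreeBase.freeHyp.qlen Ri) r _ hrdr F hFne
        (fun x hx => ⟨hle (hF x hx).1, (hF x hx).2⟩)
      linarith
    by_cases htriv : ∃ a ∈ A, a ≠ 1
    · obtain ⟨a, ha, ha1⟩ := htriv
      have hAz : A = Subgroup.zpowers a := le_antisymm
        (fun g hg => hcen a g ha1 (hcomm a ha g hg)) (by rwa [Subgroup.zpowers_le])
      right
      refine ⟨orderOf a, hprime a ha1, ?_, ⟨⟨a, ha⟩, ?_⟩⟩
      · rw [hAz, Nat.card_zpowers]
      · rintro ⟨x, hx⟩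
        have hx2 := hx
        rw [hAz] at hx2
        obtain ⟨k, hk⟩ := hx2
        exact ⟨k, Subtype.ext hk⟩
    · left
      push Not at htriv
      rw [eq_bot_iff]
      intro x hx
      rw [Subgroup.mem_bot]
      exact htriv x hx
  · -- no finite index subgroups
    intro G₁ hG₁
    have hK : G₁.normalCore.FiniteIndex := inferInstance
    have hKn : G₁.normalCore.Normal := inferInstance
    set k := G₁.normalCore.index with hk
    have hk0 : k ≠ 0 := hK.index_ne_zero
    have key : ∀ X : G, k < orderOf X → X ∈ G₁.normalCore := by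
      intro X hX
      by_contra hX1
      have hXne : X ≠ 1 := by
        rintro rfl
        exact hX1 (one_mem _)
      have hp := hprime X hXne
      have h1 : orderOf ((X : G) : G ⧸ G₁.normalCore) ∣ orderOf X :=
        orderOf_map_dvd (QuotientGroup.mk' _) X
      have h2 : orderOf ((X : G) : G ⧸ G₁.normalCore) ∣ k := by
        rw [hk, Subgroup.index]
        exact orderOf_dvd_natCard _
      rcases (Nat.dvd_prime hp).1 h1 with h3 | h3
      · rw [orderOf_eq_one_iff, QuotientGroup.eq_one_iff] at h3
        exact hX1 h3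
      · rw [h3] at h2
        have := Nat.le_of_dvd (Nat.pos_of_ne_zero hk0) h2
        omega
    have h1 : G₁.normalCore = ⊤ := by
      rw [eq_top_iff, ← hSgen, Subgroup.closure_le]
      intro x hx
      obtain ⟨i, -, rfl⟩ := Finset.mem_image.1 (Finset.mem_coe.1 hx)
      obtain ⟨X, Y, hXY, hX, hY⟩ := hfac k i
      have : v i = X * Y := hXY
      rw [this]
      exact mul_mem (key X hX) (key Y hY)
    rw [eq_top_iff, ← h1]
    exact Subgroup.normalCore_le G₁

end Pool.Agent.Y138.TB
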